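import Mathlib

set_option autoImplicit false

open Finset

namespace Pool.Agent.Q217.Friend

/-- parent of the vertex `u ≥ 2` -/
def par (w : ℕ → ℕ) (u : ℕ) : ℕ := if u = 2 then 1 else w (u - 1)

/-- children of `v` in the tree on `{1,…,n}` -/
def ch (w : ℕ → ℕ) (n v : ℕ) : Finset ℕ := (Icc 2 n).filter (fun u => par w u = v)

def dg (w : ℕ → ℕ) (n v : ℕ) : ℕ := (ch w n v).card + (if 2 ≤ v then 1 else 0)

def lf (w : ℕ → ℕ) (n v : ℕ) : Finset ℕ := (ch w n v).filter (fun u => dg w n u = 1)

def X (w : ℕ → ℕ) (n : ℕ) : ℕ := ((Icc 1 n).filter (fun v => 2 ≤ dg w n v)).card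

/-- validity of the attachments below `n` -/
def Valid (w : ℕ → ℕ) (n : ℕ) : Prop := ∀ m, 2 ≤ m → m < n → 1 ≤ w m ∧ w m ≤ m

theorem Valid.mono {w : ℕ → ℕ} {n m : ℕ} (h : Valid w n) (hm : m ≤ n) : Valid w m :=
  fun k hk hk' => h k hk (lt_of_lt_of_le hk' hm)

theorem par_mem {w : ℕ → ℕ} {n : ℕ} (h : Valid w n) {u : ℕ} (hu : u ∈ Icc 2 n) :
    1 ≤ par w u ∧ par w u < u := by
  rw [mem_Icc] at hu
  unfold par
  split_ifs with h2
  · omega
  · have := h (u - 1) (by omega) (by omega)
    omega

theorem ch_succ {w : ℕ → ℕ} {n : ℕ} (hn : 2 ≤ n) (v : ℕ) :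
    ch w (n + 1) v = if w n = v then insert (n + 1) (ch w n v) else ch w n v := by
  unfold ch
  have h1 : Icc 2 (n + 1) = insert (n + 1) (Icc 2 n) := by
    ext x; simp only [mem_Icc, mem_insert]; omega
  have h2 : par w (n + 1) = w n := by
    unfold par
    rw [if_neg (by omega)]
    rfl
  rw [h1, filter_insert, h2]

theorem notMem_ch {w : ℕ → ℕ} {n : ℕ} (v : ℕ) : n + 1 ∉ ch w n v := by
  unfold ch
  simp only [mem_filter, mem_Icc]
  omega

theorem card_ch_succ {w : ℕ → ℕ} {n : ℕ} (hn : 2 ≤ n) (v : ℕ) :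
    (ch w (n + 1) v).card = (ch w n v).card + if w n = v then 1 else 0 := by
  rw [ch_succ hn]
  split_ifs
  · rw [card_insert_of_notMem (notMem_ch v)]
  · rfl

theorem dg_succ {w : ℕ → ℕ} {n : ℕ} (hn : 2 ≤ n) (v : ℕ) :
    dg w (n + 1) v = dg w n v + if w n = v then 1 else 0 := by
  unfold dg
  rw [card_ch_succ hn]
  omega

theorem ch_gt {w : ℕ → ℕ} {n : ℕ} (h : Valid w n) {v : ℕ} (hv : n ≤ v) : ch w n v = ∅ := by
  unfold ch
  rw [filter_eq_empty_iff]
  intro u hu h1
  have := par_mem h hu
  rw [mem_Icc] at hu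
  omega

theorem dg_new {w : ℕ → ℕ} {n : ℕ} (h : Valid w (n + 1)) (hn : 1 ≤ n) :
    dg w (n + 1) (n + 1) = 1 := by
  unfold dg
  rw [ch_gt h le_rfl, card_empty, if_pos (by omega)]

theorem one_le_dg {w : ℕ → ℕ} {n : ℕ} (hn : 2 ≤ n) {v : ℕ} (hv : 1 ≤ v) : 1 ≤ dg w n v := by
  unfold dg
  by_cases h2 : 2 ≤ v
  · rw [if_pos h2]; omega
  · have h1 : v = 1 := by omega
    subst h1
    have : 2 ∈ ch w n 1 := by
      unfold ch
      simp only [mem_filter, mem_Icc]
      refine ⟨⟨le_rfl, hn⟩, ?_⟩
      unfold par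
      simp
    have := card_pos.mpr ⟨2, this⟩
    omega

/-- change of the number of leaf children -/
theorem card_lf_succ {w : ℕ → ℕ} {n : ℕ} (hn : 2 ≤ n) (h : Valid w (n + 1)) (v : ℕ) :
    ((lf w (n + 1) v).card : ℝ) = (lf w n v).card + (if w n = v then 1 else 0)
      - (if w n ∈ lf w n v then 1 else 0) := by
  have hwn := h n hn (by omega)
  have hdn : dg w n (w n) ≥ 1 := one_le_dg hn hwn.1
  have key : lf w (n + 1) v = ((lf w n v).erase (w n)) ∪ (if w n = v then {n + 1} else ∅) := by
    unfold lf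
    ext u
    simp only [mem_union, mem_erase, mem_filter]
    rw [ch_succ hn]
    constructor
    · rintro ⟨h1, h2⟩
      by_cases hu : u = n + 1
      · right
        by_cases hv : w n = v
        · rw [if_pos hv]; simp [hu]
        · rw [if_neg hv] at h1
          exact absurd (hu ▸ h1) (notMem_ch v)
      · left
        have h3 : u ∈ ch w n v := by
          split_ifs at h1
          · rw [mem_insert] at h1
            exact h1.resolve_left hu
          · exact h1
        rw [dg_succ hn] at h2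
        have hu2 : 2 ≤ u := by
          unfold ch at h3
          rw [mem_filter, mem_Icc] at h3
          omega
        have := one_le_dg (w := w) hn (v := u) (by omega)
        split_ifs at h2 with h4
        · omega
        · exact ⟨fun h5 => h4 h5.symm, h3, h2⟩
    · rintro (⟨h1, h2, h3⟩ | h1)
      · refine ⟨?_, ?_⟩
        · split_ifs
          · exact mem_insert_of_mem h2
          · exact h2
        · rw [dg_succ hn, if_neg (fun h5 => h1 h5.symm), h3]
      · by_cases hv : w n = v
        · rw [if_pos hv] at h1 ⊢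
          rw [mem_singleton] at h1
          subst h1
          exact ⟨mem_insert_self _ _, dg_new h (by omega)⟩
        · rw [if_neg hv] at h1
          exact absurd h1 (notMem_empty _)
  rw [key, card_union_of_disjoint]
  · have h1 : ((if w n = v then ({n + 1} : Finset ℕ) else ∅).card : ℝ) =
        if w n = v then 1 else 0 := by
      split_ifs <;> simp
    rw [Nat.cast_add, h1, card_erase_eq_ite]
    by_cases h2 : w n ∈ lf w n v
    · rw [if_pos h2, if_pos h2]
      have : 1 ≤ (lf w n v).card := card_pos.mpr ⟨_, h2⟩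
      rw [Nat.cast_sub this]
      push_cast
      ring
    · rw [if_neg h2, if_neg h2]
      ring
  · rw [disjoint_left]
    intro u hu hu'
    by_cases hv : w n = v
    · rw [if_pos hv, mem_singleton] at hu'
      subst hu'
      rw [mem_erase] at hu
      unfold lf at hu
      rw [mem_filter] at hu
      exact notMem_ch v hu.2.1
    · rw [if_neg hv] at hu'
      exact absurd hu' (notMem_empty _)

theorem X_succ {w : ℕ → ℕ} {n : ℕ} (hn : 2 ≤ n) (h : Valid w (n + 1)) :
    (X w (n + 1) : ℝ) = X w n + (if dg w n (w n) = 1 then 1 else 0) := by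
  have hwn := h n hn (by omega)
  have hdn : dg w n (w n) ≥ 1 := one_le_dg hn hwn.1
  have h1 : (Icc 1 (n + 1)).filter (fun v => 2 ≤ dg w (n + 1) v) =
      ((Icc 1 n).filter (fun v => 2 ≤ dg w n v)) ∪
        (if dg w n (w n) = 1 then {w n} else ∅) := by
    ext v
    simp only [mem_filter, mem_union, mem_Icc]
    rw [dg_succ hn]
    constructor
    · rintro ⟨⟨h1, h2⟩, h3⟩
      by_cases hv : v = n + 1
      · subst hv
        have h4 := dg_new h (by omega)
        rw [dg_succ hn] at h4
        omega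
      · by_cases h5 : w n = v
        · rw [if_pos h5] at h3
          by_cases h6 : dg w n v = 1
          · right
            rw [h5, if_pos h6]
            exact mem_singleton_self _
          · left
            rw [h5] at hdn
            exact ⟨⟨h1, by omega⟩, by omega⟩
        · rw [if_neg h5] at h3
          left
          exact ⟨⟨h1, by omega⟩, h3⟩
    · rintro (⟨⟨h1, h2⟩, h3⟩ | h1)
      · exact ⟨⟨h1, by omega⟩, by omega⟩
      · by_cases h6 : dg w n (w n) = 1
        · rw [if_pos h6, mem_singleton] at h1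
          subst h1
          rw [if_pos rfl]
          exact ⟨⟨hwn.1, by omega⟩, by omega⟩
        · rw [if_neg h6] at h1
          exact absurd h1 (notMem_empty _)
  unfold X
  rw [h1, card_union_of_disjoint]
  · rw [Nat.cast_add]
    congr 1
    split_ifs <;> simp
  · rw [disjoint_left]
    intro u hu hu'
    rw [mem_filter] at hu
    by_cases h6 : dg w n (w n) = 1
    · rw [if_pos h6, mem_singleton] at hu'
      subst hu'
      omega
    · rw [if_neg h6] at hu'
      exact absurd hu' (notMem_empty _)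

/-- conditional probability that the new vertex is attached to `x` -/
noncomputable def p (w : ℕ → ℕ) (n x : ℕ) : ℝ :=
  (1 / (n : ℝ)) * ((if 2 ≤ x then 1 / (dg w n (par w x) : ℝ) else 0) +
    ∑ u ∈ ch w n x, 1 / (dg w n u : ℝ))

theorem p_nonneg (w : ℕ → ℕ) (n x : ℕ) : 0 ≤ p w n x := by
  unfold p
  refine mul_nonneg (by positivity) (add_nonneg ?_ (sum_nonneg fun _ _ => by positivity))
  split_ifs
  · positivity
  · exact le_rfl

theorem p_ge {w : ℕ → ℕ} {n : ℕ} (x : ℕ) : ((lf w n x).card : ℝ) / n ≤ p w n x := by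
  unfold p
  have h1 : ((lf w n x).card : ℝ) ≤ ∑ u ∈ ch w n x, 1 / (dg w n u : ℝ) := by
    calc ((lf w n x).card : ℝ) = ∑ u ∈ lf w n x, 1 / (dg w n u : ℝ) := by
          rw [sum_congr rfl (g := fun _ => (1 : ℝ))]
          · simp
          · intro u hu
            unfold lf at hu
            rw [mem_filter] at hu
            rw [hu.2]; norm_num
      _ ≤ _ := by
          unfold lf
          exact sum_le_sum_of_subset_of_nonneg (filter_subset _ _) (fun _ _ _ => by positivity)
  have h2 : (0 : ℝ) ≤ (if 2 ≤ x then 1 / (dg w n (par w x) : ℝ) else 0) := by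
    split_ifs
    · positivity
    · exact le_rfl
  rw [div_eq_mul_one_div, mul_comm]
  exact mul_le_mul_of_nonneg_left (by linarith) (by positivity)

/-- a leaf `x ≥ 2` is reached only from its parent -/
theorem p_leaf {w : ℕ → ℕ} {n x : ℕ} (hx : 2 ≤ x) (h1 : dg w n x = 1) :
    p w n x = (1 / (n : ℝ)) * (1 / (dg w n (par w x) : ℝ)) := by
  unfold p
  have : ch w n x = ∅ := by
    unfold dg at h1
    rw [if_pos hx] at h1
    exact card_eq_zero.mp (by omega)
  rw [this, sum_empty, if_pos hx, add_zero]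

theorem lf_subset_ch (w : ℕ → ℕ) (n v : ℕ) : lf w n v ⊆ ch w n v := filter_subset _ _

theorem mem_ch {w : ℕ → ℕ} {n v u : ℕ} : u ∈ ch w n v ↔ (2 ≤ u ∧ u ≤ n) ∧ par w u = v := by
  unfold ch
  rw [mem_filter, mem_Icc]

theorem mem_lf {w : ℕ → ℕ} {n v u : ℕ} :
    u ∈ lf w n v ↔ ((2 ≤ u ∧ u ≤ n) ∧ par w u = v) ∧ dg w n u = 1 := by
  unfold lf
  rw [mem_filter, mem_ch]

/-- drift of the number of leaf children -/
theorem drift_lf {w : ℕ → ℕ} {n : ℕ} (hn : 2 ≤ n) (h : Valid w n) {v : ℕ} (hv : 1 ≤ v) :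
    (((lf w n v).card : ℝ) - 1) / n ≤
      ∑ x ∈ Icc 1 n, p w n x * ((if x = v then 1 else 0) - (if x ∈ lf w n v then 1 else 0)) := by
  have hn0 : (0 : ℝ) < n := by positivity
  have h2 : ∑ x ∈ Icc 1 n, p w n x * (if x ∈ lf w n v then (1 : ℝ) else 0) ≤ 1 / n := by
    have h3 : ∑ x ∈ Icc 1 n, p w n x * (if x ∈ lf w n v then (1 : ℝ) else 0) =
        ∑ x ∈ lf w n v, (1 / (n : ℝ)) * (1 / (dg w n v : ℝ)) := by
      simp only [mul_ite, mul_one, mul_zero]
      rw [← sum_filter]
      have h4 : (Icc 1 n).filter (fun x => x ∈ lf w n v) = lf w n v := by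
        ext x
        simp only [mem_filter, mem_Icc]
        constructor
        · exact fun h => h.2
        · intro h5
          have := mem_lf.mp h5
          exact ⟨⟨by omega, by omega⟩, h5⟩
      rw [h4]
      refine sum_congr rfl fun x hx => ?_
      have := mem_lf.mp hx
      rw [p_leaf (by omega) this.2, this.1.2]
    rw [h3, sum_const, nsmul_eq_mul]
    have h5 : ((lf w n v).card : ℝ) ≤ dg w n v := by
      exact_mod_cast (card_le_card (lf_subset_ch w n v)).trans (by unfold dg; omega)
    have h6 : (1 : ℝ) ≤ dg w n v := by exact_mod_cast one_le_dg hn hv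
    have h7 : ((lf w n v).card : ℝ) * (1 / (n : ℝ) * (1 / (dg w n v : ℝ))) =
        ((lf w n v).card : ℝ) / (dg w n v) * (1 / n) := by ring
    rw [h7]
    have h8 : ((lf w n v).card : ℝ) / (dg w n v) ≤ 1 := by
      rw [div_le_one (by linarith)]
      exact h5
    calc _ ≤ 1 * (1 / (n : ℝ)) := mul_le_mul_of_nonneg_right h8 (by positivity)
      _ = _ := one_mul _
  by_cases hvn : v ≤ n
  · have h1 : ∑ x ∈ Icc 1 n, p w n x * (if x = v then (1 : ℝ) else 0) = p w n v := by
      simp only [mul_ite, mul_one, mul_zero]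
      rw [sum_ite_eq' (Icc 1 n) v]
      rw [if_pos (mem_Icc.mpr ⟨hv, hvn⟩)]
    simp only [mul_sub, sum_sub_distrib]
    rw [h1, sub_div]
    have := p_ge (w := w) (n := n) v
    linarith
  · have h3 : lf w n v = ∅ := by
      have := lf_subset_ch w n v
      rw [ch_gt h (by omega)] at this
      exact subset_empty.mp this
    rw [h3]
    have h4 : ∑ x ∈ Icc 1 n, p w n x *
        ((if x = v then (1 : ℝ) else 0) - (if x ∈ (∅ : Finset ℕ) then 1 else 0)) = 0 := by
      refine sum_eq_zero fun x hx => ?_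
      rw [mem_Icc] at hx
      rw [if_neg (by omega), if_neg (notMem_empty _)]
      ring
    rw [h4, card_empty]
    simp only [Nat.cast_zero, zero_sub]
    exact div_nonpos_of_nonpos_of_nonneg (by norm_num) hn0.le

theorem sum_card_ch {w : ℕ → ℕ} {n : ℕ} (h : Valid w n) :
    ∑ v ∈ Icc 1 n, (ch w n v).card = (Icc 2 n).card := by
  unfold ch
  rw [← card_eq_sum_card_fiberwise]
  intro u hu
  have := par_mem h hu
  have hu' := mem_Icc.mp (mem_coe.mp hu)
  rw [mem_coe, mem_Icc]
  omega

theorem sum_card_lf {w : ℕ → ℕ} {n : ℕ} (h : Valid w n) :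
    ∑ v ∈ Icc 1 n, (lf w n v).card = ((Icc 2 n).filter (fun u => dg w n u = 1)).card := by
  have h1 : ∀ v, lf w n v = ((Icc 2 n).filter (fun u => dg w n u = 1)).filter
      (fun u => par w u = v) := by
    intro v
    ext u
    rw [mem_lf]
    simp only [mem_filter, mem_Icc]
    tauto
  simp only [h1]
  rw [← card_eq_sum_card_fiberwise]
  intro u hu
  rw [mem_coe, mem_filter] at hu
  have := par_mem h hu.1
  have hu' := mem_Icc.mp hu.1
  rw [mem_coe, mem_Icc]
  omega

theorem sum_dg {w : ℕ → ℕ} {n : ℕ} (h : Valid w n) : ∑ v ∈ Icc 1 n, dg w n v ≤ 2 * n := by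
  unfold dg
  rw [sum_add_distrib, sum_card_ch h, Nat.card_Icc]
  have : ∑ v ∈ Icc 1 n, (if 2 ≤ v then 1 else 0) ≤ ∑ v ∈ Icc 1 n, 1 :=
    sum_le_sum fun v _ => by split_ifs <;> omega
  rw [sum_const, Nat.card_Icc, smul_eq_mul] at this
  omega

/-- drift of the number of non-leaves -/
theorem drift_X {w : ℕ → ℕ} {n : ℕ} (hn : 2 ≤ n) (h : Valid w n) :
    ∑ x ∈ Icc 1 n, p w n x * (if dg w n x = 1 then 1 else 0) ≤
      (1 / (n : ℝ)) * (2 + X w n - (X w n : ℝ) ^ 2 / (2 * n)) := by
  have hn0 : (0 : ℝ) < n := by positivity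
  have hI : Icc 1 n = insert 1 (Icc 2 n) := by
    ext x; simp only [mem_Icc, mem_insert]; omega
  have h1 : (1 : ℕ) ∉ Icc 2 n := by simp
  rw [hI, sum_insert h1]
  -- the vertex 1
  have hA : p w n 1 * (if dg w n 1 = 1 then 1 else 0) ≤ (1 / (n : ℝ)) * 1 := by
    by_cases hd : dg w n 1 = 1
    · rw [if_pos hd, mul_one]
      unfold p
      refine mul_le_mul_of_nonneg_left ?_ (by positivity)
      rw [if_neg (by norm_num), zero_add]
      unfold dg at hd
      rw [if_neg (by norm_num), add_zero] at hd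
      calc ∑ u ∈ ch w n 1, 1 / (dg w n u : ℝ) ≤ ∑ u ∈ ch w n 1, (1 : ℝ) := by
            refine sum_le_sum fun u hu => ?_
            have h2 := mem_ch.mp hu
            have h3 : (1 : ℝ) ≤ dg w n u := by exact_mod_cast one_le_dg hn (by omega)
            rw [div_le_one (by linarith)]
            exact h3
        _ = 1 := by rw [sum_const, hd]; simp
    · rw [if_neg hd, mul_zero]
      positivity
  -- the other leaves
  have hB : ∑ x ∈ Icc 2 n, p w n x * (if dg w n x = 1 then 1 else 0) =
      (1 / (n : ℝ)) * ∑ v ∈ Icc 1 n, ((lf w n v).card : ℝ) / (dg w n v) := by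
    rw [mul_sum]
    have h2 : ∀ v, (1 / (n : ℝ)) * (((lf w n v).card : ℝ) / (dg w n v)) =
        ∑ u ∈ lf w n v, p w n u := by
      intro v
      rw [sum_congr rfl (g := fun _ => (1 / (n : ℝ)) * (1 / (dg w n v : ℝ)))]
      · rw [sum_const, nsmul_eq_mul]; ring
      · intro u hu
        have := mem_lf.mp hu
        rw [p_leaf (by omega) this.2, this.1.2]
    simp only [h2]
    simp only [mul_ite, mul_one, mul_zero]
    rw [← sum_filter]
    have h3 : ∀ v, lf w n v = ((Icc 2 n).filter (fun u => dg w n u = 1)).filter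
        (fun u => par w u = v) := by
      intro v
      ext u
      rw [mem_lf]
      simp only [mem_filter, mem_Icc]
      tauto
    simp only [h3]
    rw [sum_fiberwise_of_maps_to]
    intro u hu
    rw [mem_filter] at hu
    have := par_mem h hu.1
    have hu' := mem_Icc.mp hu.1
    rw [mem_Icc]
    omega
  rw [hB]
  have hC : ∑ v ∈ Icc 1 n, ((lf w n v).card : ℝ) / (dg w n v) ≤
      1 + (X w n : ℝ) - (X w n : ℝ) ^ 2 / (2 * n) := by
    have h2 : ∀ v ∈ Icc 1 n, ((lf w n v).card : ℝ) / (dg w n v) ≤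
        (if v = 1 then 1 else 0) + (if 2 ≤ dg w n v then 1 - 1 / (dg w n v : ℝ) else 0) := by
      intro v hv
      rw [mem_Icc] at hv
      have hd1 : 1 ≤ dg w n v := one_le_dg hn hv.1
      have hd1' : (1 : ℝ) ≤ dg w n v := by exact_mod_cast hd1
      have hl : (lf w n v).card ≤ (ch w n v).card := card_le_card (lf_subset_ch w n v)
      by_cases hv1 : v = 1
      · rw [if_pos hv1]
        have h3 : ((lf w n v).card : ℝ) / (dg w n v) ≤ 1 := by
          rw [div_le_one (by linarith)]
          exact_mod_cast hl.trans (by unfold dg; omega)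
        have h4 : (0 : ℝ) ≤ (if 2 ≤ dg w n v then 1 - 1 / (dg w n v : ℝ) else 0) := by
          split_ifs
          · rw [sub_nonneg, div_le_one (by linarith)]
            exact hd1'
          · exact le_rfl
        linarith
      · rw [if_neg hv1, zero_add]
        have h5 : (ch w n v).card + 1 = dg w n v := by
          unfold dg; rw [if_pos (by omega)]
        by_cases h6 : 2 ≤ dg w n v
        · rw [if_pos h6]
          have h7 : ((lf w n v).card : ℝ) ≤ dg w n v - 1 := by
            have : (lf w n v).card + 1 ≤ dg w n v := by omega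
            have : (((lf w n v).card + 1 : ℕ) : ℝ) ≤ dg w n v := by exact_mod_cast this
            push_cast at this
            linarith
          calc ((lf w n v).card : ℝ) / (dg w n v) ≤ ((dg w n v : ℝ) - 1) / (dg w n v) :=
                div_le_div_of_nonneg_right h7 (by linarith)
            _ = 1 - 1 / (dg w n v : ℝ) := by
                rw [sub_div, div_self (by linarith)]
        · rw [if_neg h6]
          have : (lf w n v).card = 0 := by omega
          rw [this]
          simp
    have h3 := sum_le_sum h2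
    rw [sum_add_distrib] at h3
    have h4 : ∑ v ∈ Icc 1 n, (if v = 1 then (1 : ℝ) else 0) = 1 := by
      rw [sum_ite_eq' (Icc 1 n) 1, if_pos (mem_Icc.mpr ⟨le_rfl, by omega⟩)]
    have h5 : ∑ v ∈ Icc 1 n, (if 2 ≤ dg w n v then 1 - 1 / (dg w n v : ℝ) else 0) ≤
        (X w n : ℝ) - (X w n : ℝ) ^ 2 / (2 * n) := by
      rw [← sum_filter]
      set a : ℝ := (X w n : ℝ) / (2 * n) with ha
      have h6 : ∀ v ∈ (Icc 1 n).filter (fun v => 2 ≤ dg w n v),
          1 - 1 / (dg w n v : ℝ) ≤ 1 - (2 * a - a ^ 2 * (dg w n v : ℝ)) := by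
        intro v hv
        rw [mem_filter] at hv
        have hd : (0 : ℝ) < dg w n v := by
          have : 0 < dg w n v := by omega
          exact_mod_cast this
        have h7 : 0 ≤ (1 - a * (dg w n v : ℝ)) ^ 2 / (dg w n v : ℝ) := by positivity
        have h8 : (1 - a * (dg w n v : ℝ)) ^ 2 / (dg w n v : ℝ) =
            1 / (dg w n v : ℝ) - (2 * a - a ^ 2 * (dg w n v : ℝ)) := by
          field_simp
          ring
        linarith
      refine (sum_le_sum h6).trans ?_
      rw [sum_sub_distrib, sum_sub_distrib, sum_const, sum_const, ← mul_sum]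
      have h9 : ∑ v ∈ (Icc 1 n).filter (fun v => 2 ≤ dg w n v), (dg w n v : ℝ) ≤ 2 * n := by
        have := (sum_le_sum_of_subset (f := fun v => dg w n v)
          (filter_subset (fun v => 2 ≤ dg w n v) (Icc 1 n))).trans (sum_dg h)
        exact_mod_cast this
      have h10 : a ^ 2 * ∑ v ∈ (Icc 1 n).filter (fun v => 2 ≤ dg w n v), (dg w n v : ℝ) ≤
          a ^ 2 * (2 * n) := mul_le_mul_of_nonneg_left h9 (sq_nonneg _)
      have h11 : a ^ 2 * (2 * n) = (X w n : ℝ) ^ 2 / (2 * n) := by
        rw [ha]; field_simp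
      have h12 : (X w n : ℝ) * (2 * a) = 2 * ((X w n : ℝ) ^ 2 / (2 * n)) := by
        rw [ha]; field_simp
      have h13 : (((Icc 1 n).filter (fun v => 2 ≤ dg w n v)).card : ℝ) = X w n := rfl
      rw [nsmul_eq_mul, nsmul_eq_mul, h13]
      linarith
    linarith
  have := mul_le_mul_of_nonneg_left hC (show (0 : ℝ) ≤ 1 / (n : ℝ) by positivity)
  calc _ ≤ (1 / (n : ℝ)) * 1 + (1 / (n : ℝ)) * (1 + (X w n : ℝ) - (X w n : ℝ) ^ 2 / (2 * n)) :=
        add_le_add hA this
    _ = _ := by ring

/-- most vertices are leaf children of vertices with many leaf children -/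
theorem sum_lf_sub_one {w : ℕ → ℕ} {n : ℕ} (hn : 2 ≤ n) (h : Valid w n) :
    (n : ℝ) - 2 * X w n - 2 ≤ ∑ v ∈ Icc 1 n, max (((lf w n v).card : ℝ) - 1) 0 := by
  have h1 : ∑ v ∈ Icc 1 n, (((lf w n v).card : ℝ) - (if 1 ≤ (lf w n v).card then 1 else 0)) ≤
      ∑ v ∈ Icc 1 n, max (((lf w n v).card : ℝ) - 1) 0 := by
    refine sum_le_sum fun v _ => ?_
    split_ifs with h2
    · exact le_max_left _ _
    · have : (lf w n v).card = 0 := by omega
      rw [this]
      simp
  refine le_trans ?_ h1
  rw [sum_sub_distrib]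
  have h2 : ∑ v ∈ Icc 1 n, ((lf w n v).card : ℝ) =
      (((Icc 2 n).filter (fun u => dg w n u = 1)).card : ℝ) := by
    rw [← sum_card_lf h]; push_cast; rfl
  have h3 : (n : ℝ) - 1 - X w n ≤ (((Icc 2 n).filter (fun u => dg w n u = 1)).card : ℝ) := by
    have h4 : (Icc 2 n).card ≤ ((Icc 2 n).filter (fun u => dg w n u = 1)).card + X w n := by
      rw [← card_filter_add_card_filter_not (s := Icc 2 n) (fun u => dg w n u = 1)]
      refine Nat.add_le_add_left ?_ _
      unfold X
      refine card_le_card fun u hu => ?_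
      rw [mem_filter, mem_Icc] at hu ⊢
      have := one_le_dg (w := w) hn (v := u) (by omega)
      omega
    rw [Nat.card_Icc] at h4
    have h5 : n ≤ ((Icc 2 n).filter (fun u => dg w n u = 1)).card + X w n + 1 := by omega
    have h6 : (n : ℝ) ≤ ((((Icc 2 n).filter (fun u => dg w n u = 1)).card + X w n + 1 : ℕ) : ℝ) := by
      exact_mod_cast h5
    push_cast at h6
    linarith
  have h4 : ∑ v ∈ Icc 1 n, (if 1 ≤ (lf w n v).card then (1 : ℝ) else 0) ≤ X w n + 1 := by
    rw [← sum_filter, sum_const, nsmul_eq_mul, mul_one]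
    have h5 : ((Icc 1 n).filter (fun v => 1 ≤ (lf w n v).card)).card ≤ X w n + 1 := by
      unfold X
      have h6 : (Icc 1 n).filter (fun v => 1 ≤ (lf w n v).card) ⊆
          insert 1 ((Icc 1 n).filter (fun v => 2 ≤ dg w n v)) := by
        intro v hv
        rw [mem_filter, mem_Icc] at hv
        rw [mem_insert, mem_filter, mem_Icc]
        by_cases hv1 : v = 1
        · exact Or.inl hv1
        · right
          refine ⟨hv.1, ?_⟩
          have := card_le_card (lf_subset_ch w n v)
          unfold dg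
          rw [if_pos (by omega)]
          omega
      exact (card_le_card h6).trans (card_insert_le _ _)
    exact_mod_cast h5
  rw [h2]
  linarith

theorem X_le {w : ℕ → ℕ} (n : ℕ) : X w n ≤ n := by
  unfold X
  refine (card_filter_le _ _).trans ?_
  rw [Nat.card_Icc]; omega

/-- the degrees in a set of vertices -/
theorem sum_dg_le (w : ℕ → ℕ) (n : ℕ) (F : Finset ℕ) : ∑ v ∈ F, dg w n v ≤ n + F.card := by
  unfold dg
  rw [sum_add_distrib]
  have h1 : ∑ v ∈ F, (ch w n v).card ≤ n := by
    unfold ch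
    rw [← card_biUnion]
    · refine (card_le_card (biUnion_subset.mpr fun v _ => filter_subset _ _)).trans ?_
      rw [Nat.card_Icc]; omega
    · intro a _ b _ hab
      rw [Function.onFun, disjoint_left]
      intro u hu hu'
      rw [mem_filter] at hu hu'
      exact hab (hu.2.symm.trans hu'.2)
  have h2 : ∑ v ∈ F, (if 2 ≤ v then 1 else 0) ≤ ∑ v ∈ F, 1 :=
    sum_le_sum fun v _ => by split_ifs <;> omega
  rw [sum_const, smul_eq_mul, mul_one] at h2
  omega

theorem card_lf_le_dg (w : ℕ → ℕ) (n v : ℕ) : (lf w n v).card ≤ dg w n v :=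
  (card_le_card (lf_subset_ch w n v)).trans (by unfold dg; omega)

theorem card_lf_le (w : ℕ → ℕ) (n v : ℕ) : (lf w n v).card ≤ n := by
  refine (card_le_card (lf_subset_ch w n v)).trans ?_
  unfold ch
  refine (card_filter_le _ _).trans ?_
  rw [Nat.card_Icc]; omega

/-- dependence on the attachments below `n` only -/
def Agree (w w' : ℕ → ℕ) (n : ℕ) : Prop := ∀ m, 2 ≤ m → m < n → w m = w' m

theorem ch_congr {w w' : ℕ → ℕ} {n : ℕ} (h : Agree w w' n) (v : ℕ) : ch w n v = ch w' n v := by
  unfold ch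
  refine filter_congr fun u hu => ?_
  rw [mem_Icc] at hu
  unfold par
  split_ifs with h2
  · exact Iff.rfl
  · rw [h (u - 1) (by omega) (by omega)]

theorem dg_congr {w w' : ℕ → ℕ} {n : ℕ} (h : Agree w w' n) (v : ℕ) : dg w n v = dg w' n v := by
  unfold dg
  rw [ch_congr h]

theorem lf_congr {w w' : ℕ → ℕ} {n : ℕ} (h : Agree w w' n) (v : ℕ) : lf w n v = lf w' n v := by
  unfold lf
  rw [ch_congr h]
  refine filter_congr fun u _ => ?_
  rw [dg_congr h]

theorem X_congr {w w' : ℕ → ℕ} {n : ℕ} (h : Agree w w' n) : X w n = X w' n := by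
  unfold X
  congr 1
  refine filter_congr fun u _ => ?_
  rw [dg_congr h]

theorem p_congr {w w' : ℕ → ℕ} {n : ℕ} (h : Agree w w' n) {x : ℕ} (hx : x ≤ n) :
    p w n x = p w' n x := by
  unfold p
  congr 1
  congr 1
  · split_ifs with h2
    · rw [dg_congr h]
      congr 3
      unfold par
      split_ifs with h3
      · rfl
      · rw [h (x - 1) (by omega) (by omega)]
    · rfl
  · rw [ch_congr h]
    refine sum_congr rfl fun u _ => ?_
    rw [dg_congr h]

end Pool.Agent.Q217.Friend
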