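import Pool.Agent.Q217.Friend.Prob

set_option autoImplicit false

open Finset MeasureTheory Filter
open scoped ENNReal Topology

namespace Pool.Agent.Q217.Friend

variable {Ω : Type*} [m0 : MeasurableSpace Ω] {μ : Measure Ω} {W : ℕ → Ω → ℕ}

noncomputable def Y (W : ℕ → Ω → ℕ) (v k : ℕ) (ω : Ω) : ℝ :=
  (((lf (path W ω) (k + 2) v).card : ℝ) - 1) / ((k : ℝ) + 2)

theorem Dep_lf (n v : ℕ) : Dep n (fun w => ((lf w n v).card : ℝ)) := fun _ _ h => by
  change ((lf _ n v).card : ℝ) = ((lf _ n v).card : ℝ)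
  rw [lf_congr h]

theorem Dep_X (n : ℕ) : Dep n (fun w => (X w n : ℝ)) := fun _ _ h => by
  change (X _ n : ℝ) = (X _ n : ℝ)
  rw [X_congr h]

theorem Dep_Y (v k : ℕ) : Dep (k + 2) (fun w => (((lf w (k + 2) v).card : ℝ) - 1) / ((k : ℝ) + 2)) :=
  fun _ _ h => by
    change (((lf _ (k + 2) v).card : ℝ) - 1) / ((k : ℝ) + 2) =
      (((lf _ (k + 2) v).card : ℝ) - 1) / ((k : ℝ) + 2)
    rw [lf_congr h]

theorem abs_Y_le (w : ℕ → ℕ) (v k : ℕ) :
    |(((lf w (k + 2) v).card : ℝ) - 1) / ((k : ℝ) + 2)| ≤ 1 := by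
  have h1 : ((lf w (k + 2) v).card : ℝ) ≤ (k : ℝ) + 2 := by
    have := card_lf_le w (k + 2) v
    exact_mod_cast this
  have h2 : (0 : ℝ) ≤ (lf w (k + 2) v).card := by positivity
  rw [abs_div, div_le_one (by positivity), abs_of_pos (show (0 : ℝ) < (k : ℝ) + 2 by positivity),
    abs_le]
  constructor <;> linarith [show (0 : ℝ) ≤ k by positivity]

theorem integrable_Y [IsProbabilityMeasure μ] (hL : Law μ W) (v k : ℕ) :
    Integrable (Y W v k) μ :=
  (Dep_Y v k).integrable hL.meas (fun w => abs_Y_le w v k)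

theorem integrable_lf [IsProbabilityMeasure μ] (hL : Law μ W) (v k : ℕ) :
    Integrable (fun ω => ((lf (path W ω) (k + 2) v).card : ℝ)) μ := by
  refine (Dep_lf (k + 2) v).integrable (C := (k : ℝ) + 2) hL.meas (fun w => ?_)
  rw [abs_of_nonneg (by positivity)]
  exact_mod_cast card_lf_le w (k + 2) v

theorem Y_step [IsProbabilityMeasure μ] (hL : Law μ W) {v : ℕ} (hv : 1 ≤ v) (k : ℕ) {s : Set Ω}
    (hs : MeasurableSet[filt hL.meas k] s) : ∫ ω in s, Y W v k ω ∂μ ≤ ∫ ω in s, Y W v (k + 1) ω ∂μ := by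
  classical
  set Δ : ℕ → (ℕ → ℕ) → ℝ := fun x w =>
    (if x = v then 1 else 0) - (if x ∈ lf w (k + 2) v then 1 else 0) with hΔdef
  have hΔ : ∀ x, Dep (k + 2) (Δ x) := by
    intro x w w' h
    simp only [hΔdef]
    rw [lf_congr h]
  have hC : ∀ x w, |Δ x w| ≤ 1 := by
    intro x w
    simp only [hΔdef]
    split_ifs <;> norm_num
  have h1 : ∀ᵐ ω ∂μ, Y W v (k + 1) ω =
      (1 / ((k : ℝ) + 3)) * ((((lf (path W ω) (k + 2) v).card : ℝ) - 1) +
        Δ (W (k + 2) ω) (path W ω)) := by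
    filter_upwards [hL.valid] with ω hω
    unfold Y
    have h2 := card_lf_succ (w := path W ω) (n := k + 2) (by omega) (hω (k + 2 + 1)) v
    have h3 : k + 1 + 2 = k + 2 + 1 := by omega
    rw [h3, h2]
    simp only [hΔdef]
    have h4 : path W ω (k + 2) = W (k + 2) ω := rfl
    rw [h4]
    push_cast
    rw [div_eq_mul_one_div, mul_comm]
    congr 1
    · ring
    · ring
  rw [integral_congr_ae (ae_restrict_of_ae h1), integral_const_mul]
  have hi1 : Integrable (fun ω => ((lf (path W ω) (k + 2) v).card : ℝ) - 1) μ :=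
    (integrable_lf hL v k).sub (integrable_const 1)
  have hms : Measurable (fun ω => Δ (W (k + 2) ω) (path W ω)) := by
    simp only [hΔdef]
    refine Measurable.sub ?_ ?_
    · exact Measurable.ite ((hL.meas (k + 2)) (measurableSet_singleton v)) measurable_const
        measurable_const
    · have h5 : Dep (k + 1 + 2) (fun w => if w (k + 2) ∈ lf w (k + 2) v then (1 : ℝ) else 0) := by
        intro w w' h
        change (if w (k + 2) ∈ lf w (k + 2) v then (1 : ℝ) else 0) =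
          (if w' (k + 2) ∈ lf w' (k + 2) v then (1 : ℝ) else 0)
        rw [lf_congr (w := w) (w' := w') (fun m h1 h2 => h m h1 (by omega)),
          h (k + 2) (by omega) (by omega)]
      exact h5.measurable hL.meas
  have hi2 : Integrable (fun ω => Δ (W (k + 2) ω) (path W ω)) μ :=
    Integrable.of_bound hms.aestronglyMeasurable 1
      (Eventually.of_forall fun ω => by rw [Real.norm_eq_abs]; exact hC _ _)
  rw [integral_add hi1.integrableOn hi2.integrableOn, setIntegral_step hL k hs hΔ hC]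
  have hi3 : Integrable (fun ω => ∑ x ∈ Icc 1 (k + 2), p (path W ω) (k + 2) x * Δ x (path W ω)) μ := by
    refine integrable_finsetSum _ fun x hx => ?_
    have hd : Dep (k + 2) (fun w => p w (k + 2) x * Δ x w) := fun w w' h => by
      change p w (k + 2) x * Δ x w = p w' (k + 2) x * Δ x w'
      rw [hΔ x w w' h, p_congr h (mem_Icc.mp hx).2]
    refine hd.integrable (C := 2 * 1) hL.meas ?_
    intro w
    rw [abs_mul, abs_of_nonneg (p_nonneg _ _ _)]
    exact mul_le_mul (p_le _ _) (hC x w) (abs_nonneg _) (by norm_num)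
  rw [← integral_add hi1.integrableOn hi3.integrableOn, ← integral_const_mul]
  refine setIntegral_mono_ae (integrable_Y hL v k).integrableOn
    ((hi1.add hi3).const_mul _).integrableOn ?_
  filter_upwards [hL.valid] with ω hω
  have h6 := drift_lf (w := path W ω) (n := k + 2) (by omega) (hω (k + 2)) hv
  unfold Y
  simp only [hΔdef]
  push_cast at h6
  have hk : (0 : ℝ) < (k : ℝ) + 2 := by positivity
  have hk3 : (0 : ℝ) < (k : ℝ) + 3 := by positivity
  have h7 : (((lf (path W ω) (k + 2) v).card : ℝ) - 1) / ((k : ℝ) + 2) =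
      (1 / ((k : ℝ) + 3)) * ((((lf (path W ω) (k + 2) v).card : ℝ) - 1) +
        (((lf (path W ω) (k + 2) v).card : ℝ) - 1) / ((k : ℝ) + 2)) := by
    field_simp
    ring
  rw [h7]
  exact mul_le_mul_of_nonneg_left (by linarith) (by positivity)

theorem submartingale_Y [IsProbabilityMeasure μ] (hL : Law μ W) {v : ℕ} (hv : 1 ≤ v) :
    Submartingale (Y W v) (filt hL.meas) μ := by
  refine submartingale_of_setIntegral_le_succ ?_ (integrable_Y hL v) fun k s hs =>
    Y_step hL hv k hs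
  intro k
  exact ((Dep_Y v k).measurable_filt hL.meas).stronglyMeasurable

/-- limiting proportion -/
noncomputable def Z (w : ℕ → ℕ) (v : ℕ) : ℝ :=
  liminf (fun n : ℕ => (dg w n v : ℝ) / n) atTop

theorem dg_le (w : ℕ → ℕ) (n v : ℕ) : dg w n v ≤ n + 1 := by
  have := sum_dg_le w n {v}
  simpa using this

theorem ratio_nonneg (w : ℕ → ℕ) (n v : ℕ) : (0 : ℝ) ≤ (dg w n v : ℝ) / n := by positivity

theorem ratio_le (w : ℕ → ℕ) (n v : ℕ) : (dg w n v : ℝ) / n ≤ 2 := by
  rcases Nat.eq_zero_or_pos n with h0 | h0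
  · subst h0; simp
  have : (dg w n v : ℝ) ≤ n + 1 := by exact_mod_cast dg_le w n v
  have h1 : (1 : ℝ) ≤ n := by exact_mod_cast h0
  rw [div_le_iff₀ (by linarith)]
  linarith

theorem bdd_below (w : ℕ → ℕ) (v : ℕ) :
    IsBoundedUnder (· ≥ ·) atTop (fun n : ℕ => (dg w n v : ℝ) / n) :=
  ⟨0, eventually_map.mpr (Eventually.of_forall fun n => ratio_nonneg w n v)⟩

theorem bdd_above (w : ℕ → ℕ) (v : ℕ) :
    IsBoundedUnder (· ≤ ·) atTop (fun n : ℕ => (dg w n v : ℝ) / n) :=
  ⟨2, eventually_map.mpr (Eventually.of_forall fun n => ratio_le w n v)⟩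

theorem Z_nonneg (w : ℕ → ℕ) (v : ℕ) : 0 ≤ Z w v :=
  le_liminf_of_le (bdd_above w v).isCoboundedUnder_ge
    (Eventually.of_forall fun n => ratio_nonneg w n v)

theorem Z_le (w : ℕ → ℕ) (v : ℕ) : Z w v ≤ 2 :=
  liminf_le_of_le (bdd_below w v) fun b hb => by
    obtain ⟨n, hn⟩ := hb.exists
    exact hn.trans (ratio_le w n v)

theorem eventually_Z (w : ℕ → ℕ) (v : ℕ) {ε : ℝ} (hε : 0 < ε) :
    ∀ᶠ n : ℕ in atTop, Z w v - ε < (dg w n v : ℝ) / n :=
  eventually_lt_of_lt_liminf (show Z w v - ε < liminf (fun n : ℕ => (dg w n v : ℝ) / n) atTop by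
    change Z w v - ε < Z w v
    linarith) (bdd_below w v)

theorem sum_Z_le (w : ℕ → ℕ) (F : Finset ℕ) : ∑ v ∈ F, Z w v ≤ 1 := by
  refine le_of_forall_pos_lt_add fun ε hε => ?_
  have hF : (0 : ℝ) < (F.card : ℝ) + 1 := by positivity
  set δ : ℝ := ε / (2 * ((F.card : ℝ) + 1)) with hδ
  have hδ0 : 0 < δ := by positivity
  have h1 : ∀ᶠ n : ℕ in atTop, ∀ v ∈ F, Z w v - δ < (dg w n v : ℝ) / n := by
    rw [eventually_all_finset]
    exact fun v _ => eventually_Z w v hδ0
  have h2 : ∀ᶠ n : ℕ in atTop, (F.card : ℝ) / n < ε / 2 :=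
    (tendsto_const_div_atTop_nhds_zero_nat (F.card : ℝ)).eventually (gt_mem_nhds (by linarith))
  obtain ⟨n, h3, h4, h5⟩ := (h1.and (h2.and (eventually_gt_atTop 0))).exists
  have hn0 : (0 : ℝ) < n := by exact_mod_cast h5
  have h6 : ∑ v ∈ F, (Z w v - δ) ≤ ∑ v ∈ F, (dg w n v : ℝ) / n :=
    sum_le_sum fun v hv => (h3 v hv).le
  rw [sum_sub_distrib, sum_const, nsmul_eq_mul, ← sum_div] at h6
  have h7 : (∑ v ∈ F, (dg w n v : ℝ)) / n ≤ 1 + (F.card : ℝ) / n := by
    have : (∑ v ∈ F, (dg w n v : ℝ)) ≤ (n : ℝ) + F.card := by exact_mod_cast sum_dg_le w n F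
    calc _ ≤ ((n : ℝ) + F.card) / n := div_le_div_of_nonneg_right this hn0.le
      _ = _ := by rw [add_div, div_self hn0.ne']
  have h8 : (F.card : ℝ) * δ ≤ ε / 2 := by
    rw [hδ]
    have : (F.card : ℝ) * (ε / (2 * ((F.card : ℝ) + 1))) =
        (ε / 2) * ((F.card : ℝ) / ((F.card : ℝ) + 1)) := by field_simp
    rw [this]
    have h9 : (F.card : ℝ) / ((F.card : ℝ) + 1) ≤ 1 := by
      rw [div_le_one hF]; linarith
    calc _ ≤ (ε / 2) * 1 := mul_le_mul_of_nonneg_left h9 (by linarith)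
      _ = _ := mul_one _
  linarith

theorem Dep_dg (n v : ℕ) : Dep (n + 2) (fun w => (dg w n v : ℝ) / n) := fun w w' h => by
  change (dg w n v : ℝ) / n = (dg w' n v : ℝ) / n
  rw [dg_congr (w := w) (w' := w') (fun m h1 h2 => h m h1 (by omega))]

theorem measurable_Z (hW : ∀ n, Measurable (W n)) (v : ℕ) :
    Measurable (fun ω => Z (path W ω) v) := by
  unfold Z
  exact Measurable.liminf fun n => (Dep_dg n v).measurable hW

theorem integrable_Z [IsProbabilityMeasure μ] (hW : ∀ n, Measurable (W n)) (v : ℕ) :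
    Integrable (fun ω => Z (path W ω) v) μ := by
  refine Integrable.of_bound (measurable_Z hW v).aestronglyMeasurable 2 ?_
  exact Eventually.of_forall fun ω => by
    rw [Real.norm_eq_abs, abs_of_nonneg (Z_nonneg _ _)]
    exact Z_le _ _

/-- mean of the limit proportion -/
theorem integral_Y_le [IsProbabilityMeasure μ] (hL : Law μ W) {v : ℕ} (hv : 1 ≤ v) (k : ℕ) :
    ∫ ω, max (Y W v k ω) 0 ∂μ ≤ ∫ ω, Z (path W ω) v ∂μ := by
  have hpos := (submartingale_Y hL hv).pos
  have hbound : ∀ n ω, ‖(Y W v)⁺ n ω‖ ≤ 1 := by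
    intro n ω
    have h1 : (Y W v)⁺ n ω = max (Y W v n ω) 0 := rfl
    rw [h1, Real.norm_eq_abs, abs_of_nonneg (le_max_right _ _)]
    exact max_le ((le_abs_self _).trans (abs_Y_le _ _ _)) zero_le_one
  have hconv := hpos.ae_tendsto_limitProcess (R := 1) (fun n => by
    refine (eLpNorm_le_of_ae_bound (C := 1) (Eventually.of_forall (hbound n))).trans ?_
    simp)
  set ℓ := (filt hL.meas).limitProcess ((Y W v)⁺) μ with hℓ
  have hlim : Tendsto (fun n => ∫ ω, (Y W v)⁺ n ω ∂μ) atTop (𝓝 (∫ ω, ℓ ω ∂μ)) := by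
    refine tendsto_integral_of_dominated_convergence (fun _ => 1) ?_ (integrable_const 1) ?_ hconv
    · exact fun n => (hpos.integrable n).aestronglyMeasurable
    · exact fun n => Eventually.of_forall (hbound n)
  have hmono : ∀ n, k ≤ n → ∫ ω, (Y W v)⁺ k ω ∂μ ≤ ∫ ω, (Y W v)⁺ n ω ∂μ := by
    intro n hn
    have := hpos.setIntegral_le hn MeasurableSet.univ
    simpa using this
  have h1 : ∫ ω, (Y W v)⁺ k ω ∂μ ≤ ∫ ω, ℓ ω ∂μ :=
    ge_of_tendsto hlim (eventually_atTop.mpr ⟨k, hmono⟩)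
  refine le_trans h1 ?_
  have hℓi : Integrable ℓ μ := by
    have hsm : AEStronglyMeasurable ℓ μ :=
      aestronglyMeasurable_of_tendsto_ae atTop
        (fun n => (hpos.integrable n).aestronglyMeasurable) hconv
    refine Integrable.of_bound hsm 1 ?_
    filter_upwards [hconv] with ω hω
    exact le_of_tendsto (hω.norm) (Eventually.of_forall fun n => hbound n ω)
  refine integral_mono_ae hℓi (integrable_Z hL.meas v) ?_
  filter_upwards [hconv] with ω hω
  have h2 : Tendsto (fun n : ℕ => (Y W v)⁺ (n - 2) ω) atTop (𝓝 (ℓ ω)) :=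
    hω.comp (tendsto_sub_atTop_nat 2)
  have h3 : liminf (fun n : ℕ => (Y W v)⁺ (n - 2) ω) atTop = ℓ ω := h2.liminf_eq
  rw [← h3]
  unfold Z
  refine liminf_le_liminf ?_ h2.isBoundedUnder_ge (bdd_above _ _).isCoboundedUnder_ge
  filter_upwards [eventually_ge_atTop 2] with n hn
  obtain ⟨j, rfl⟩ := Nat.exists_eq_add_of_le' hn
  have h4 : (Y W v)⁺ (j + 2 - 2) ω = max (Y W v j ω) 0 := rfl
  rw [h4]
  refine max_le ?_ (ratio_nonneg _ _ _)
  unfold Y
  have h5 : ((lf (path W ω) (j + 2) v).card : ℝ) ≤ dg (path W ω) (j + 2) v := by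
    exact_mod_cast card_lf_le_dg _ _ _
  push_cast
  exact div_le_div_of_nonneg_right (by linarith) (by positivity)

/-- mean proportion of non-leaves -/
noncomputable def A (μ : Measure Ω) (W : ℕ → Ω → ℕ) (k : ℕ) : ℝ :=
  ∫ ω, (X (path W ω) (k + 2) : ℝ) / ((k : ℝ) + 2) ∂μ

theorem integrable_X [IsProbabilityMeasure μ] (hL : Law μ W) (k : ℕ) :
    Integrable (fun ω => (X (path W ω) (k + 2) : ℝ)) μ := by
  refine (Dep_X (k + 2)).integrable (C := (k : ℝ) + 2) hL.meas (fun w => ?_)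
  rw [abs_of_nonneg (by positivity)]
  exact_mod_cast X_le (w := w) (k + 2)

theorem A_nonneg (k : ℕ) : 0 ≤ A μ W k := integral_nonneg fun ω => by positivity

theorem A_step [IsProbabilityMeasure μ] (hL : Law μ W) (k : ℕ) :
    A μ W (k + 1) ≤ A μ W k + 2 / (((k : ℝ) + 2) * ((k : ℝ) + 3)) -
      (A μ W k) ^ 2 / (2 * ((k : ℝ) + 3)) := by
  classical
  set Δ : ℕ → (ℕ → ℕ) → ℝ := fun x w => if dg w (k + 2) x = 1 then 1 else 0 with hΔdef
  have hΔ : ∀ x, Dep (k + 2) (Δ x) := by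
    intro x w w' h
    simp only [hΔdef]
    rw [dg_congr h]
  have hC : ∀ x w, |Δ x w| ≤ 1 := by
    intro x w
    simp only [hΔdef]
    split_ifs <;> norm_num
  have h1 : ∀ᵐ ω ∂μ, (X (path W ω) (k + 1 + 2) : ℝ) / (((k + 1 : ℕ) : ℝ) + 2) =
      (1 / ((k : ℝ) + 3)) * ((X (path W ω) (k + 2) : ℝ) + Δ (W (k + 2) ω) (path W ω)) := by
    filter_upwards [hL.valid] with ω hω
    have h2 := X_succ (w := path W ω) (n := k + 2) (by omega) (hω (k + 2 + 1))
    have h3 : k + 1 + 2 = k + 2 + 1 := by omega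
    rw [h3, h2]
    simp only [hΔdef]
    have h4 : path W ω (k + 2) = W (k + 2) ω := rfl
    rw [h4]
    push_cast
    rw [div_eq_mul_one_div, mul_comm]
    congr 1
    ring
  have hmΔ : Measurable (fun ω => Δ (W (k + 2) ω) (path W ω)) := by
    have h5 : Dep (k + 1 + 2) (fun w => Δ (w (k + 2)) w) := by
      intro w w' h
      change Δ (w (k + 2)) w = Δ (w' (k + 2)) w'
      rw [h (k + 2) (by omega) (by omega)]
      exact hΔ _ w w' (fun m h1 h2 => h m h1 (by omega))
    exact h5.measurable hL.meas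
  have hi2 : Integrable (fun ω => Δ (W (k + 2) ω) (path W ω)) μ :=
    Integrable.of_bound hmΔ.aestronglyMeasurable 1
      (Eventually.of_forall fun ω => by rw [Real.norm_eq_abs]; exact hC _ _)
  have hst := setIntegral_step hL k (s := Set.univ) MeasurableSet.univ hΔ hC
  rw [setIntegral_univ, setIntegral_univ] at hst
  have hA : A μ W (k + 1) = (1 / ((k : ℝ) + 3)) * (∫ ω, (X (path W ω) (k + 2) : ℝ) ∂μ +
      ∫ ω, ∑ x ∈ Icc 1 (k + 2), p (path W ω) (k + 2) x * Δ x (path W ω) ∂μ) := by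
    unfold A
    rw [integral_congr_ae h1, integral_const_mul, integral_add (integrable_X hL k) hi2, hst]
  have hk : (0 : ℝ) < (k : ℝ) + 2 := by positivity
  have hk3 : (0 : ℝ) < (k : ℝ) + 3 := by positivity
  set a := A μ W k with ha
  have hXa : ∫ ω, (X (path W ω) (k + 2) : ℝ) ∂μ = ((k : ℝ) + 2) * a := by
    rw [ha]; unfold A
    rw [← integral_const_mul]
    refine integral_congr_ae (Eventually.of_forall fun ω => ?_)
    simp only
    field_simp
  have hi3 : Integrable (fun ω => ∑ x ∈ Icc 1 (k + 2), p (path W ω) (k + 2) x * Δ x (path W ω)) μ := by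
    refine integrable_finsetSum _ fun x hx => ?_
    have hd : Dep (k + 2) (fun w => p w (k + 2) x * Δ x w) := fun w w' h => by
      change p w (k + 2) x * Δ x w = p w' (k + 2) x * Δ x w'
      rw [hΔ x w w' h, p_congr h (mem_Icc.mp hx).2]
    refine hd.integrable (C := 2 * 1) hL.meas ?_
    intro w
    rw [abs_mul, abs_of_nonneg (p_nonneg _ _ _)]
    exact mul_le_mul (p_le _ _) (hC x w) (abs_nonneg _) (by norm_num)
  -- bound the increment, using `y² ≥ 2 a y - a²`
  have hinc : ∫ ω, ∑ x ∈ Icc 1 (k + 2), p (path W ω) (k + 2) x * Δ x (path W ω) ∂μ ≤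
      ∫ ω, (2 / ((k : ℝ) + 2) + (a ^ 2) / 2 +
        (1 / ((k : ℝ) + 2) * (1 - a)) * (X (path W ω) (k + 2) : ℝ)) ∂μ := by
    refine integral_mono_ae hi3 (((integrable_const _).add
      ((integrable_X hL k).const_mul _))) ?_
    filter_upwards [hL.valid] with ω hω
    have h6 := drift_X (w := path W ω) (n := k + 2) (by omega) (hω (k + 2))
    simp only [hΔdef]
    refine h6.trans ?_
    push_cast
    set x : ℝ := (X (path W ω) (k + 2) : ℝ)
    have h7 : 0 ≤ (x / ((k : ℝ) + 2) - a) ^ 2 := sq_nonneg _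
    have h8 : (1 / ((k : ℝ) + 2)) * (2 + x - x ^ 2 / (2 * ((k : ℝ) + 2))) =
        2 / ((k : ℝ) + 2) + a ^ 2 / 2 + (1 / ((k : ℝ) + 2) * (1 - a)) * x -
          (x / ((k : ℝ) + 2) - a) ^ 2 / 2 := by
      field_simp
      ring
    rw [h8]
    linarith
  rw [integral_add (integrable_const _) ((integrable_X hL k).const_mul _), integral_const,
    integral_const_mul, hXa] at hinc
  simp only [probReal_univ, one_smul] at hinc
  rw [hA, hXa]
  have h9 : (1 / ((k : ℝ) + 3)) * (((k : ℝ) + 2) * a +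
      ∫ ω, ∑ x ∈ Icc 1 (k + 2), p (path W ω) (k + 2) x * Δ x (path W ω) ∂μ) ≤
      (1 / ((k : ℝ) + 3)) * (((k : ℝ) + 2) * a + (2 / ((k : ℝ) + 2) + a ^ 2 / 2 +
        (1 / ((k : ℝ) + 2) * (1 - a)) * (((k : ℝ) + 2) * a))) :=
    mul_le_mul_of_nonneg_left (by linarith) (by positivity)
  refine h9.trans (le_of_eq ?_)
  field_simp
  ring

theorem seq_small {a : ℕ → ℝ} (h0 : ∀ k, 0 ≤ a k)
    (hs : ∀ k, a (k + 1) ≤ a k + 2 / (((k : ℝ) + 2) * ((k : ℝ) + 3)) -
      (a k) ^ 2 / (2 * ((k : ℝ) + 3))) {ε : ℝ} (hε : 0 < ε) (N : ℕ) : ∃ k, N ≤ k ∧ a k < ε := by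
  by_contra hcon
  push Not at hcon
  set H : ℕ → ℝ := fun n => ∑ i ∈ range n, 1 / ((i : ℝ) + 1) with hH
  have hHt : Tendsto H atTop atTop := Real.tendsto_sum_range_one_div_nat_succ_atTop
  set c : ℝ := ε ^ 2 / 2 with hc
  have hc0 : 0 < c := by positivity
  have hmono : ∀ j, a (N + j) + 2 / (((N + j : ℕ) : ℝ) + 2) + c * H (N + j + 2) ≤
      a N + 2 / ((N : ℝ) + 2) + c * H (N + 2) := by
    intro j
    induction j with
    | zero => simp
    | succ j ih =>
      refine le_trans ?_ ih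
      have h1 := hs (N + j)
      have h2 := hcon (N + j) (by omega)
      set k : ℕ := N + j with hk
      have hk2 : (0 : ℝ) < (k : ℝ) + 2 := by positivity
      have hk3 : (0 : ℝ) < (k : ℝ) + 3 := by positivity
      have h3 : H (k + 1 + 2) = H (k + 2) + 1 / ((k : ℝ) + 3) := by
        simp only [hH]
        rw [show k + 1 + 2 = (k + 2) + 1 by omega, sum_range_succ]
        push_cast
        congr 2
        ring
      have h4 : c * (1 / ((k : ℝ) + 3)) ≤ (a k) ^ 2 / (2 * ((k : ℝ) + 3)) := by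
        have h5 : ε ^ 2 ≤ (a k) ^ 2 := by nlinarith
        have h6 : c * (1 / ((k : ℝ) + 3)) = ε ^ 2 / (2 * ((k : ℝ) + 3)) := by
          rw [hc]; field_simp
        rw [h6]
        exact div_le_div_of_nonneg_right h5 (by positivity)
      have h7 : 2 / (((k : ℝ) + 2) * ((k : ℝ) + 3)) = 2 / ((k : ℝ) + 2) - 2 / ((k : ℝ) + 3) := by
        field_simp
        ring
      have h8 : (((N + (j + 1) : ℕ) : ℝ) + 2) = (k : ℝ) + 3 := by
        rw [hk]; push_cast; ring
      rw [h8, show N + (j + 1) = k + 1 by omega, h3, mul_add]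
      linarith
  obtain ⟨n, hn1, hn2⟩ := ((hHt.eventually_gt_atTop
    ((a N + 2 / ((N : ℝ) + 2) + c * H (N + 2)) / c)).and (eventually_ge_atTop (N + 2))).exists
  obtain ⟨j, rfl⟩ := Nat.exists_eq_add_of_le hn2
  have h9 := hmono j
  rw [div_lt_iff₀ hc0] at hn1
  have h10 : N + 2 + j = N + j + 2 := by omega
  rw [h10] at hn1
  have h11 := h0 (N + j)
  have h12 : (0 : ℝ) ≤ 2 / (((N + j : ℕ) : ℝ) + 2) := by positivity
  linarith

theorem main [IsProbabilityMeasure μ] (hL : Law μ W) :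
    ∀ᵐ ω ∂μ, HasSum (fun i : ℕ => Z (path W ω) (i + 1)) 1 := by
  set f : Ω → ℝ≥0∞ := fun ω => ∑' i : ℕ, ENNReal.ofReal (Z (path W ω) (i + 1)) with hf
  have hfle : ∀ ω, f ω ≤ 1 := by
    intro ω
    rw [hf]
    simp only
    rw [ENNReal.tsum_eq_iSup_nat]
    refine iSup_le fun m => ?_
    rw [← ENNReal.ofReal_sum_of_nonneg fun i _ => Z_nonneg _ _]
    have h1 := sum_Z_le (path W ω) ((range m).image (fun i => i + 1))
    rw [sum_image (fun a _ b _ h => by simpa using h)] at h1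
    exact ENNReal.ofReal_le_one.mpr h1
  have hfm : Measurable f := by
    rw [hf]
    exact Measurable.tsum fun i => (measurable_Z hL.meas (i + 1)).ennreal_ofReal
  have hlow : ∀ ε : ℝ, 0 < ε → ENNReal.ofReal (1 - ε) ≤ ∫⁻ ω, f ω ∂μ := by
    intro ε hε
    obtain ⟨k, hk1, hk2⟩ := seq_small (a := A μ W) (fun k => A_nonneg k) (A_step hL)
      (ε := ε / 4) (by linarith) (Nat.ceil (4 / ε))
    have hkε : 2 / ((k : ℝ) + 2) ≤ ε / 2 := by
      have h1 : 4 / ε ≤ (k : ℝ) := (Nat.le_ceil _).trans (by exact_mod_cast hk1)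
      rw [div_le_iff₀ hε] at h1
      rw [div_le_iff₀ (by positivity)]
      nlinarith
    have h1 : (1 : ℝ) - ε ≤ ∑ v ∈ Icc 1 (k + 2), ∫ ω, Z (path W ω) v ∂μ := by
      have h2 : ∑ v ∈ Icc 1 (k + 2), ∫ ω, max (Y W v k ω) 0 ∂μ ≤
          ∑ v ∈ Icc 1 (k + 2), ∫ ω, Z (path W ω) v ∂μ :=
        sum_le_sum fun v hv => integral_Y_le hL (mem_Icc.mp hv).1 k
      refine le_trans ?_ h2
      have hYi : ∀ v, Integrable (fun ω => max (Y W v k ω) 0) μ := fun v =>
        (integrable_Y hL v k).sup (integrable_const 0)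
      have hswap : ∫ ω, ∑ v ∈ Icc 1 (k + 2), max (Y W v k ω) 0 ∂μ =
          ∑ v ∈ Icc 1 (k + 2), ∫ ω, max (Y W v k ω) 0 ∂μ :=
        integral_finsetSum _ fun v _ => hYi v
      rw [← hswap]
      have h3 : ∫ ω, (1 - 2 / ((k : ℝ) + 2) - 2 * ((X (path W ω) (k + 2) : ℝ) / ((k : ℝ) + 2))) ∂μ ≤
          ∫ ω, ∑ v ∈ Icc 1 (k + 2), max (Y W v k ω) 0 ∂μ := by
        refine integral_mono_ae ((integrable_const _).sub
          (((integrable_X hL k).div_const _).const_mul _))
          (integrable_finsetSum _ fun v _ => hYi v) ?_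
        filter_upwards [hL.valid] with ω hω
        have h4 := sum_lf_sub_one (w := path W ω) (n := k + 2) (by omega) (hω (k + 2))
        have hk2 : (0 : ℝ) < (k : ℝ) + 2 := by positivity
        have h5 : ∑ v ∈ Icc 1 (k + 2), max (Y W v k ω) 0 =
            (∑ v ∈ Icc 1 (k + 2), max (((lf (path W ω) (k + 2) v).card : ℝ) - 1) 0) /
              ((k : ℝ) + 2) := by
          rw [sum_div]
          refine sum_congr rfl fun v _ => ?_
          unfold Y
          have := max_div_div_right hk2.le (((lf (path W ω) (k + 2) v).card : ℝ) - 1) 0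
          rw [zero_div] at this
          exact this
        rw [h5, le_div_iff₀ hk2]
        push_cast at h4
        have h6 : (1 - 2 / ((k : ℝ) + 2) - 2 * ((X (path W ω) (k + 2) : ℝ) / ((k : ℝ) + 2))) *
            ((k : ℝ) + 2) = ((k : ℝ) + 2) - 2 * X (path W ω) (k + 2) - 2 := by
          field_simp
          ring
        rw [h6]
        exact h4
      refine le_trans ?_ h3
      rw [integral_sub (integrable_const _) (((integrable_X hL k).div_const _).const_mul _),
        integral_const, integral_const_mul]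
      simp only [probReal_univ, one_smul]
      change _ ≤ _ - 2 * A μ W k
      linarith
    have h2 : ∀ v, ∫⁻ ω, ENNReal.ofReal (Z (path W ω) v) ∂μ =
        ENNReal.ofReal (∫ ω, Z (path W ω) v ∂μ) := fun v =>
      (ofReal_integral_eq_lintegral_ofReal (integrable_Z hL.meas v)
        (Eventually.of_forall fun ω => Z_nonneg _ _)).symm
    calc ENNReal.ofReal (1 - ε) ≤ ENNReal.ofReal (∑ v ∈ Icc 1 (k + 2), ∫ ω, Z (path W ω) v ∂μ) :=
          ENNReal.ofReal_le_ofReal h1
      _ = ∑ v ∈ Icc 1 (k + 2), ∫⁻ ω, ENNReal.ofReal (Z (path W ω) v) ∂μ := by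
          rw [ENNReal.ofReal_sum_of_nonneg fun v _ => integral_nonneg fun ω => Z_nonneg _ _]
          exact sum_congr rfl fun v _ => (h2 v).symm
      _ = ∑ i ∈ range (k + 2), ∫⁻ ω, ENNReal.ofReal (Z (path W ω) (i + 1)) ∂μ := by
          rw [range_eq_Ico, sum_Ico_add' (fun v => ∫⁻ ω, ENNReal.ofReal (Z (path W ω) v) ∂μ) 0
            (k + 2) 1]
          rfl
      _ ≤ ∑' i : ℕ, ∫⁻ ω, ENNReal.ofReal (Z (path W ω) (i + 1)) ∂μ :=
          ENNReal.sum_le_tsum _
      _ = ∫⁻ ω, f ω ∂μ := by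
          rw [hf, lintegral_tsum fun i => (measurable_Z hL.meas (i + 1)).ennreal_ofReal.aemeasurable]
  have hone : 1 ≤ ∫⁻ ω, f ω ∂μ := by
    have h1 : Tendsto (fun n : ℕ => ENNReal.ofReal (1 - 1 / ((n : ℝ) + 1))) atTop
        (𝓝 (ENNReal.ofReal (1 - 0))) := by
      refine ENNReal.tendsto_ofReal ?_
      exact tendsto_const_nhds.sub tendsto_one_div_add_atTop_nhds_zero_nat
    rw [sub_zero, ENNReal.ofReal_one] at h1
    exact le_of_tendsto h1 (Eventually.of_forall fun n => hlow _ (by positivity))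
  have hae : f =ᵐ[μ] fun _ => 1 := by
    refine ae_eq_of_ae_le_of_lintegral_le (Eventually.of_forall hfle) ?_ aemeasurable_const ?_
    · refine ne_top_of_le_ne_top ENNReal.one_ne_top ?_
      calc ∫⁻ ω, f ω ∂μ ≤ ∫⁻ _, 1 ∂μ := lintegral_mono hfle
        _ = 1 := by simp
    · simpa using hone
  filter_upwards [hae] with ω hω
  have hsum : Summable (fun i : ℕ => Z (path W ω) (i + 1)) := by
    refine summable_of_sum_le (c := 1) (fun i => Z_nonneg _ _) fun u => ?_
    have h1 := sum_Z_le (path W ω) (u.image (fun i => i + 1))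
    rwa [sum_image (fun a _ b _ h => by simpa using h)] at h1
  have h1 : ENNReal.ofReal (∑' i : ℕ, Z (path W ω) (i + 1)) = 1 := by
    rw [ENNReal.ofReal_tsum_of_nonneg (fun i => Z_nonneg _ _) hsum]
    exact hω
  have h2 : ∑' i : ℕ, Z (path W ω) (i + 1) = 1 := by
    have h3 := congrArg ENNReal.toReal h1
    rwa [ENNReal.toReal_ofReal (tsum_nonneg fun i => Z_nonneg _ _), ENNReal.toReal_one] at h3
  rw [← h2]
  exact hsum.hasSum

end Pool.Agent.Q217.Friend
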