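import Pool.Agent.Q217.Friend.Comb

set_option autoImplicit false

open Finset MeasureTheory Filter
open scoped ENNReal Topology

namespace Pool.Agent.Q217.Friend

variable {Ω : Type*} [m0 : MeasurableSpace Ω]

def path (W : ℕ → Ω → ℕ) (ω : Ω) : ℕ → ℕ := fun m => W m ω

def restr (k : ℕ) (w : ℕ → ℕ) : Fin k → ℕ := fun i => w (i + 2)

def ext (k : ℕ) (h : Fin k → ℕ) : ℕ → ℕ := fun m => if hm : m - 2 < k then h ⟨m - 2, hm⟩ else 0

theorem agree_ext (k : ℕ) (w : ℕ → ℕ) : Agree w (ext k (restr k w)) (k + 2) := by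
  intro m h1 h2
  unfold ext restr
  rw [dif_pos (by omega)]
  simp only
  congr 1
  omega

theorem restr_eq_iff (k : ℕ) (w : ℕ → ℕ) (h : Fin k → ℕ) :
    restr k w = h ↔ ∀ m, 2 ≤ m → m < k + 2 → w m = ext k h m := by
  constructor
  · rintro rfl m h1 h2
    exact agree_ext k w m h1 h2
  · intro h1
    funext i
    have := h1 (i + 2) (by omega) (by have := i.2; omega)
    unfold restr
    rw [this]
    unfold ext
    rw [dif_pos (by have := i.2; omega)]
    simp

structure Law (μ : Measure Ω) (W : ℕ → Ω → ℕ) : Prop where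
  meas : ∀ n, Measurable (W n)
  valid : ∀ᵐ ω ∂μ, ∀ n, Valid (path W ω) n
  step : ∀ n, 2 ≤ n → ∀ w : ℕ → ℕ, Valid w n → ∀ x, x ∈ Icc 1 n →
    μ {ω | (∀ m, 2 ≤ m → m < n → W m ω = w m) ∧ W n ω = x} =
      ENNReal.ofReal (p w n x) * μ {ω | ∀ m, 2 ≤ m → m < n → W m ω = w m}

variable {μ : Measure Ω} {W : ℕ → Ω → ℕ}

theorem measurable_restr (hW : ∀ n, Measurable (W n)) (k : ℕ) :
    Measurable (fun ω => restr k (path W ω)) :=
  measurable_pi_lambda _ fun i => hW (i + 2)

/-- functions of the path that depend on the attachments below `n` only -/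
def Dep {β : Type*} (n : ℕ) (φ : (ℕ → ℕ) → β) : Prop := ∀ w w', Agree w w' n → φ w = φ w'

def filt (hW : ∀ n, Measurable (W n)) : Filtration ℕ m0 where
  seq k := MeasurableSpace.comap (fun ω => restr k (path W ω)) inferInstance
  mono' := by
    intro i j hij
    have h1 : (fun ω => restr i (path W ω)) =
        (fun (h : Fin j → ℕ) (a : Fin i) => h (Fin.castLE hij a)) ∘ (fun ω => restr j (path W ω)) := by
      funext ω
      rfl
    change MeasurableSpace.comap (fun ω => restr i (path W ω)) _ ≤ _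
    rw [h1, ← MeasurableSpace.comap_comp]
    refine MeasurableSpace.comap_mono ?_
    rw [← measurable_iff_comap_le]
    exact measurable_pi_lambda _ fun a => measurable_pi_apply _
  le' := fun k => (measurable_restr hW k).comap_le

theorem Dep.eq {β : Type*} {k : ℕ} {φ : (ℕ → ℕ) → β} (h : Dep (k + 2) φ) (w : ℕ → ℕ) :
    φ w = φ (ext k (restr k w)) := h _ _ (agree_ext k w)

theorem Dep.measurable_filt {k : ℕ} {φ : (ℕ → ℕ) → ℝ} (hW : ∀ n, Measurable (W n))
    (h : Dep (k + 2) φ) : Measurable[filt hW k] (fun ω => φ (path W ω)) := by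
  have h1 : (fun ω => φ (path W ω)) = (fun h => φ (ext k h)) ∘ (fun ω => restr k (path W ω)) := by
    funext ω
    exact h.eq _
  rw [h1]
  exact (Measurable.of_discrete (f := fun h : Fin k → ℕ => φ (ext k h))).comp
    (comap_measurable _)

theorem Dep.measurable {k : ℕ} {φ : (ℕ → ℕ) → ℝ} (hW : ∀ n, Measurable (W n))
    (h : Dep (k + 2) φ) : Measurable (fun ω => φ (path W ω)) :=
  (h.measurable_filt hW).mono ((filt hW).le k) le_rfl

theorem Dep.integrable [IsFiniteMeasure μ] {k : ℕ} {φ : (ℕ → ℕ) → ℝ} {C : ℝ}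
    (hW : ∀ n, Measurable (W n)) (h : Dep (k + 2) φ) (hC : ∀ w, |φ w| ≤ C) :
    Integrable (fun ω => φ (path W ω)) μ := by
  refine Integrable.of_bound (h.measurable hW).aestronglyMeasurable C ?_
  exact Eventually.of_forall fun ω => by rw [Real.norm_eq_abs]; exact hC _

/-- one-step identity -/
theorem integral_step [IsFiniteMeasure μ] (hL : Law μ W) (k : ℕ) {x : ℕ}
    (hx : x ∈ Icc 1 (k + 2)) {φ : (ℕ → ℕ) → ℝ} (hφ : Dep (k + 2) φ) :
    ∫ ω in {ω | W (k + 2) ω = x}, φ (path W ω) ∂μ = ∫ ω, p (path W ω) (k + 2) x * φ (path W ω) ∂μ := by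
  have hmr := measurable_restr hL.meas k
  have hms : MeasurableSet {ω | W (k + 2) ω = x} := hL.meas (k + 2) (measurableSet_singleton x)
  have key : (μ.restrict {ω | W (k + 2) ω = x}).map (fun ω => restr k (path W ω)) =
      (μ.map (fun ω => restr k (path W ω))).withDensity
        (fun h => ENNReal.ofReal (p (ext k h) (k + 2) x)) := by
    refine Measure.ext_of_singleton fun h => ?_
    rw [Measure.map_apply hmr (measurableSet_singleton h), Measure.restrict_apply
      (hmr (measurableSet_singleton h)), withDensity_apply _ (measurableSet_singleton h),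
      lintegral_singleton, Measure.map_apply hmr (measurableSet_singleton h)]
    have e1 : (fun ω => restr k (path W ω)) ⁻¹' {h} =
        {ω | ∀ m, 2 ≤ m → m < k + 2 → W m ω = ext k h m} := by
      ext ω
      simp only [Set.mem_preimage, Set.mem_singleton_iff, Set.mem_ofPred_eq]
      exact restr_eq_iff k _ h
    rw [e1]
    by_cases hv : Valid (ext k h) (k + 2)
    · rw [← hL.step (k + 2) (by omega) _ hv x hx]
      rfl
    · have h0 : μ {ω | ∀ m, 2 ≤ m → m < k + 2 → W m ω = ext k h m} = 0 := by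
        refine measure_mono_null ?_ hL.valid
        intro ω hω hval
        apply hv
        intro m h1 h2
        have h3 := hval (k + 2) m h1 h2
        have h4 := hω m h1 h2
        unfold path at h3
        rw [h4] at h3
        exact h3
      rw [h0, mul_zero]
      exact measure_mono_null Set.inter_subset_left h0
  have h1 : ∀ ω, φ (path W ω) = φ (ext k (restr k (path W ω))) := fun ω => hφ.eq _
  have h2 : ∀ ω, p (path W ω) (k + 2) x = p (ext k (restr k (path W ω))) (k + 2) x := fun ω =>
    p_congr (agree_ext k _) (mem_Icc.mp hx).2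
  simp only [h1, h2]
  have h3 : Measurable (fun h : Fin k → ℕ => φ (ext k h)) := Measurable.of_discrete
  have h4 : Measurable (fun h : Fin k → ℕ => p (ext k h) (k + 2) x * φ (ext k h)) :=
    Measurable.of_discrete
  rw [← integral_map (μ := μ.restrict {ω | W (k + 2) ω = x}) hmr.aemeasurable
    (f := fun h => φ (ext k h)) h3.aestronglyMeasurable, key,
    integral_withDensity_eq_integral_toReal_smul Measurable.of_discrete
      (Eventually.of_forall fun _ => ENNReal.ofReal_lt_top),
    ← integral_map hmr.aemeasurable (f := fun h => p (ext k h) (k + 2) x * φ (ext k h))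
      h4.aestronglyMeasurable]
  refine integral_congr_ae (Eventually.of_forall fun h => ?_)
  simp only [smul_eq_mul]
  rw [ENNReal.toReal_ofReal (p_nonneg _ _ _)]

theorem p_le {w : ℕ → ℕ} (n x : ℕ) : p w n x ≤ 2 := by
  unfold p
  rcases Nat.eq_zero_or_pos n with h0 | h0
  · subst h0; simp
  have hn0 : (0 : ℝ) < n := by exact_mod_cast h0
  have hinv : ∀ d : ℕ, (1 : ℝ) / d ≤ 1 := by
    intro d
    rcases Nat.eq_zero_or_pos d with h1 | h1
    · subst h1; simp
    · rw [div_le_one (by exact_mod_cast h1)]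
      exact_mod_cast h1
  have h1 : (if 2 ≤ x then 1 / (dg w n (par w x) : ℝ) else 0) ≤ 1 := by
    split_ifs
    · exact hinv _
    · norm_num
  have h2 : ∑ u ∈ ch w n x, 1 / (dg w n u : ℝ) ≤ n := by
    calc _ ≤ ∑ u ∈ ch w n x, (1 : ℝ) := sum_le_sum fun u _ => hinv _
      _ = (ch w n x).card := by simp
      _ ≤ n := by
          have : (ch w n x).card ≤ n := by
            unfold ch
            refine (card_filter_le _ _).trans ?_
            rw [Nat.card_Icc]; omega
          exact_mod_cast this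
  have h3 : (1 : ℝ) ≤ n := by exact_mod_cast h0
  calc _ ≤ (1 / (n : ℝ)) * (1 + n) := mul_le_mul_of_nonneg_left (by linarith) (by positivity)
    _ = 1 / n + 1 := by field_simp; 
    _ ≤ 2 := by
      have : (1 : ℝ) / n ≤ 1 := by rw [div_le_one hn0]; exact h3
      linarith

theorem Dep_p (k : ℕ) {x : ℕ} (hx : x ∈ Icc 1 (k + 2)) :
    Dep (k + 2) (fun w => p w (k + 2) x) := fun _ _ h => p_congr h (mem_Icc.mp hx).2

/-- expected increment over sets of the past -/
theorem setIntegral_step [IsFiniteMeasure μ] (hL : Law μ W) (k : ℕ) {s : Set Ω}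
    (hs : MeasurableSet[filt hL.meas k] s) {Δ : ℕ → (ℕ → ℕ) → ℝ} {C : ℝ}
    (hΔ : ∀ x, Dep (k + 2) (Δ x)) (hC : ∀ x w, |Δ x w| ≤ C) :
    ∫ ω in s, Δ (W (k + 2) ω) (path W ω) ∂μ =
      ∫ ω in s, ∑ x ∈ Icc 1 (k + 2), p (path W ω) (k + 2) x * Δ x (path W ω) ∂μ := by
  classical
  obtain ⟨S, hS, rfl⟩ := hs
  have hmr := measurable_restr hL.meas k
  have hsm : MeasurableSet ((fun ω => restr k (path W ω)) ⁻¹' S) := hmr hS
  have h0 : ∀ᵐ ω ∂μ, Δ (W (k + 2) ω) (path W ω) =
      ∑ x ∈ Icc 1 (k + 2), Set.indicator {ω | W (k + 2) ω = x} (fun ω => Δ x (path W ω)) ω := by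
    filter_upwards [hL.valid] with ω hω
    have h1 := hω (k + 3) (k + 2) (by omega) (by omega)
    have h2 : W (k + 2) ω ∈ Icc 1 (k + 2) := mem_Icc.mpr h1
    rw [sum_eq_single (W (k + 2) ω)]
    · rw [Set.indicator_of_mem]
      rfl
    · intro x _ hx
      exact Set.indicator_of_notMem (fun h => hx h.symm) _
    · intro h3
      exact absurd h2 h3
  rw [integral_congr_ae (ae_restrict_of_ae h0)]
  have hint : ∀ x, Integrable (fun ω => Δ x (path W ω)) μ := fun x =>
    (hΔ x).integrable hL.meas (hC x)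
  have hms : ∀ x, MeasurableSet {ω | W (k + 2) ω = x} := fun x =>
    hL.meas (k + 2) (measurableSet_singleton x)
  rw [integral_finsetSum _ fun x _ => ((hint x).indicator (hms x)).integrableOn,
    integral_finsetSum]
  swap
  · intro x hx
    have hd : Dep (k + 2) (fun w => p w (k + 2) x * Δ x w) := fun w w' h => by
      change p w (k + 2) x * Δ x w = p w' (k + 2) x * Δ x w'
      rw [hΔ x w w' h, p_congr h (mem_Icc.mp hx).2]
    refine (hd.integrable (C := 2 * C) hL.meas ?_).integrableOn
    intro w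
    rw [abs_mul, abs_of_nonneg (p_nonneg _ _ _)]
    exact mul_le_mul (p_le _ _) (hC x w) (abs_nonneg _) (by norm_num)
  refine sum_congr rfl fun x hx => ?_
  rw [← integral_indicator hsm, ← integral_indicator hsm]
  have h1 : (Set.indicator ((fun ω => restr k (path W ω)) ⁻¹' S)
      (fun ω => Set.indicator {ω | W (k + 2) ω = x} (fun ω => Δ x (path W ω)) ω)) =
      Set.indicator {ω | W (k + 2) ω = x}
        (fun ω => (fun w => if restr k w ∈ S then Δ x w else 0) (path W ω)) := by
    funext ω
    simp only [Set.indicator, Set.mem_preimage, Set.mem_ofPred_eq]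
    split_ifs <;> rfl
  have h2 : (Set.indicator ((fun ω => restr k (path W ω)) ⁻¹' S)
      (fun ω => p (path W ω) (k + 2) x * Δ x (path W ω))) =
      (fun ω => p (path W ω) (k + 2) x *
        (fun w => if restr k w ∈ S then Δ x w else 0) (path W ω)) := by
    funext ω
    simp only [Set.indicator, Set.mem_preimage]
    split_ifs <;> simp
  rw [h1, h2, integral_indicator (hms x)]
  refine integral_step hL k hx (φ := fun w => if restr k w ∈ S then Δ x w else 0) ?_
  intro w w' h
  have h3 : restr k w = restr k w' := by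
    funext i
    exact h (i + 2) (by omega) (by have := i.2; omega)
  simp only [h3]
  rw [hΔ x w w' h]

end Pool.Agent.Q217.Friend
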